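import Pool.Agent.Lib.P2a19dz.Defs

/-!
The image of a closed set under a polynomial map over an algebraically closed field contains the
complement of a hypersurface if it is not contained in a hypersurface.
-/

set_option autoImplicit false

namespace Pool.Agent.P2a19dz

open Module MvPolynomial Pool.Agent.P2a19db Pool.Agent.P2a19da

/-- an injective ring homomorphism of finite presentation from a domain: the image on spectra
contains a principal open set -/
lemma exists_basic2 {R S : Type*} [CommRing R] [IsDomain R] [CommRing S] (θ : R →+* S)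
    (hf : θ.FinitePresentation) (hi : Function.Injective θ) :
    ∃ f : R, f ≠ 0 ∧ ∀ m : PrimeSpectrum R, f ∉ m.asIdeal →
      ∃ n : PrimeSpectrum S, PrimeSpectrum.comap θ n = m := by
  obtain ⟨D, hD⟩ := PrimeSpectrum.exists_constructibleSetData_iff.mpr
    (PrimeSpectrum.isConstructible_range_comap hf)
  have hbot : (⟨⊥, Ideal.isPrime_bot⟩ : PrimeSpectrum R) ∈ Set.range (PrimeSpectrum.comap θ) := by
    obtain ⟨p', hp', hc⟩ := Ideal.exists_comap_eq_of_mem_minimalPrimes_of_injective hi
      (⊥ : Ideal R) (by rw [IsDomain.minimalPrimes_eq_singleton_bot]; rfl)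
    exact ⟨⟨p', hp'⟩, PrimeSpectrum.ext hc⟩
  rw [← hD, PrimeSpectrum.ConstructibleSetData.toSet, Set.mem_iUnion₂] at hbot
  obtain ⟨C, hC, hC1, hC2⟩ := hbot
  rw [PrimeSpectrum.mem_zeroLocus] at hC1 hC2
  refine ⟨C.f, ?_, fun m hm => ?_⟩
  · intro h
    apply hC2
    intro x hx
    rw [Set.mem_singleton_iff] at hx
    rw [hx, h]
    exact Ideal.zero_mem _
  · have h1 : m ∈ D.toSet := by
      rw [PrimeSpectrum.ConstructibleSetData.toSet, Set.mem_iUnion₂]
      refine ⟨C, hC, ?_, ?_⟩
      · rw [PrimeSpectrum.mem_zeroLocus]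
        intro x hx
        have h2 := hC1 hx
        have h3 : x = 0 := h2
        rw [h3]
        exact Ideal.zero_mem _
      · rw [PrimeSpectrum.mem_zeroLocus]
        intro h
        exact hm (h (Set.mem_singleton _))
    rw [hD] at h1
    exact h1

theorem chevalley2 {F : Type*} [Field F] [IsAlgClosed F] {r : ℕ}
    {Z : Set (Matrix (Fin r) (Fin r) F)} (hZ : Cn Z) (h0 : van Z = ⊥) :
    ∃ f : MvPolynomial (Fin r × Fin r) F, f ≠ 0 ∧
      ∀ M : Matrix (Fin r) (Fin r) F, ev M f ≠ 0 → M ∈ Z := by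
  obtain ⟨N, S, P, rfl⟩ := hZ
  let A := MvPolynomial (Fin N) F ⧸ Ideal.span S
  let u : MvPolynomial (Fin N) F →ₐ[F] A := Ideal.Quotient.mkₐ F (Ideal.span S)
  have huS : ∀ f ∈ S, u f = 0 := fun f hf =>
    Ideal.Quotient.eq_zero_iff_mem.2 (Ideal.subset_span hf)
  let θ : MvPolynomial (Fin r × Fin r) F →ₐ[F] A := aeval (fun p => u (P p.1 p.2))
  have hθX : ∀ p, θ (X p) = u (P p.1 p.2) := fun p => aeval_X _ p
  -- injectivity
  have hinj : Function.Injective θ := by
    rw [injective_iff_map_eq_zero]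
    intro f hf
    have h1 : f ∈ van {M : Matrix (Fin r) (Fin r) F | ∃ t : Fin N → F,
        (∀ f ∈ S, eval t f = 0) ∧ ∀ i j, M i j = eval t (P i j)} := by
      rintro M ⟨t, ht, hM⟩
      have hle : ∀ a ∈ Ideal.span S, (eval t : MvPolynomial (Fin N) F →+* F) a = 0 := by
        intro a ha
        have h : Ideal.span S ≤ RingHom.ker (eval t : MvPolynomial (Fin N) F →+* F) :=
          Ideal.span_le.2 (fun f hf => ht f hf)
        exact h ha
      let φ : A →+* F := Ideal.Quotient.lift (Ideal.span S) (eval t) hle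
      have hφ : ∀ p, φ (u p) = eval t p := fun p => Ideal.Quotient.lift_mk _ _ _
      have h3 : φ.comp (θ : MvPolynomial (Fin r × Fin r) F →+* A) =
          (eval (fun p => M p.1 p.2) : MvPolynomial (Fin r × Fin r) F →+* F) := by
        apply MvPolynomial.ringHom_ext
        · intro c
          have h4 : θ (C c) = u (C c) := by
            rw [← MvPolynomial.algebraMap_eq, ← MvPolynomial.algebraMap_eq, AlgHom.commutes,
              AlgHom.commutes]
          change φ (θ (C c)) = _
          rw [h4, hφ, eval_C, eval_C]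
        · intro p
          change φ (θ (X p)) = _
          rw [hθX, hφ, eval_X, ← hM]
      have h5 := RingHom.congr_fun h3 f
      change φ (θ f) = ev M f at h5
      rw [← h5, hf, map_zero]
    rw [h0] at h1
    exact h1
  -- finite presentation
  have hfin : Algebra.FiniteType F A :=
    Algebra.FiniteType.of_surjective u Ideal.Quotient.mk_surjective
  have hfp : (θ : MvPolynomial (Fin r × Fin r) F →+* A).FinitePresentation := by
    rw [← RingHom.FinitePresentation.of_finiteType]
    have h1 : ((θ : MvPolynomial (Fin r × Fin r) F →+* A).comp (algebraMap F _)).FiniteType := by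
      have h2 : (θ : MvPolynomial (Fin r × Fin r) F →+* A).comp (algebraMap F _) =
          algebraMap F A := by
        ext c
        exact θ.commutes c
      rw [h2]
      exact RingHom.finiteType_algebraMap.2 hfin
    exact RingHom.FiniteType.of_comp_finiteType h1
  obtain ⟨f, hf0, hf⟩ := exists_basic2 _ hfp hinj
  refine ⟨f, hf0, fun M hM => ?_⟩
  obtain ⟨n, hn⟩ := hf ⟨RingHom.ker (eval (fun p : Fin r × Fin r => M p.1 p.2)),
    RingHom.ker_isPrime _⟩ hM
  obtain ⟨𝔫, h𝔫, hle'⟩ := Ideal.exists_le_maximal n.asIdeal n.isPrime.ne_top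
  let _ : Field (A ⧸ 𝔫) := Ideal.Quotient.field 𝔫
  have hft : Algebra.FiniteType F (A ⧸ 𝔫) :=
    Algebra.FiniteType.of_surjective (Ideal.Quotient.mkₐ F 𝔫) Ideal.Quotient.mk_surjective
  have hmf : Module.Finite F (A ⧸ 𝔫) := finite_of_finite_type_of_isJacobsonRing F (A ⧸ 𝔫)
  have hbij : Function.Bijective (algebraMap F (A ⧸ 𝔫)) :=
    IsAlgClosed.algebraMap_bijective_of_isIntegral
  let e : F ≃ₐ[F] (A ⧸ 𝔫) := AlgEquiv.ofBijective (Algebra.ofId F (A ⧸ 𝔫)) hbij
  let ψ : A →ₐ[F] F := (e.symm : (A ⧸ 𝔫) →ₐ[F] F).comp (Ideal.Quotient.mkₐ F 𝔫)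
  have hψ0 : ∀ s ∈ 𝔫, ψ s = 0 := by
    intro s hs
    change e.symm (Ideal.Quotient.mk 𝔫 s) = 0
    rw [Ideal.Quotient.eq_zero_iff_mem.2 hs, map_zero]
  let t : Fin N → F := fun i => ψ (u (X i))
  have hψ : ∀ p, ψ (u p) = eval t p := by
    intro p
    have h1 : ψ.comp u = aeval t := by
      apply MvPolynomial.algHom_ext
      intro i
      rw [aeval_X]
      rfl
    have h2 := AlgHom.congr_fun h1 p
    rw [AlgHom.comp_apply] at h2
    exact h2.trans (RingHom.congr_fun (MvPolynomial.coe_aeval_eq_eval t) p)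
  refine ⟨t, fun g hg => ?_, fun i j => ?_⟩
  · rw [← hψ, huS g hg, map_zero]
  · have h1 : θ (X (i, j) - C (M i j)) ∈ 𝔫 := by
      apply hle'
      have h2 : (X (i, j) - C (M i j) : MvPolynomial (Fin r × Fin r) F) ∈
          (PrimeSpectrum.comap (θ : MvPolynomial (Fin r × Fin r) F →+* A) n).asIdeal := by
        rw [hn]
        change eval (fun p : Fin r × Fin r => M p.1 p.2) (X (i, j) - C (M i j)) = 0
        rw [map_sub, eval_X, eval_C, sub_self]
      exact h2
    have h2 := hψ0 _ h1
    rw [map_sub, map_sub, hθX, hψ, ← MvPolynomial.algebraMap_eq, AlgHom.commutes,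
      AlgHom.commutes, sub_eq_zero] at h2
    exact h2.symm

end Pool.Agent.P2a19dz
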