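import Pool.Agent.Lib.P2a19dz.Prd

/-!
Monoids of invertible matrices generated by an irreducible constructible set.
-/

set_option autoImplicit false

namespace Pool.Agent.P2a19dz

open Module MvPolynomial Pool.Agent.P2a19db Pool.Agent.P2a19da

variable {F : Type*} [Field F] {r : ℕ}

section step

variable {X : Set (Matrix (Fin r) (Fin r) F)} {C : Set (Matrix (Fin r) (Fin r) F) → Prop}

/-- a set of the class `C` of minimal height -/
lemma exists_minimal' (h1 : C {1}) (X : Set (Matrix (Fin r) (Fin r) F)) :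
    ∃ Z : Set (Matrix (Fin r) (Fin r) F), C Z ∧ (∀ M ∈ Z, M ∈ Submonoid.closure X) ∧
      ∀ Z' : Set (Matrix (Fin r) (Fin r) F), C Z' → (∀ M ∈ Z', M ∈ Submonoid.closure X) →
        (van Z).height ≤ (van Z').height := by
  let S : Set ℕ∞ := {h | ∃ Z : Set (Matrix (Fin r) (Fin r) F), C Z ∧
    (∀ M ∈ Z, M ∈ Submonoid.closure X) ∧ (van Z).height = h}
  have hS : S.Nonempty := ⟨_, {1}, h1, by
    intro M hM
    rw [Set.mem_singleton_iff.1 hM]
    exact one_mem _, rfl⟩
  obtain ⟨Z, hZ, hZM, hh⟩ := csInf_mem hS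
  refine ⟨Z, hZ, hZM, fun Z' hZ' hZM' => ?_⟩
  rw [hh]
  exact csInf_le (OrderBot.bddBelow S) ⟨Z', hZ', hZM', rfl⟩

/-- the ideal of `Z * C` does not depend on `C` in a set of the class -/
lemma van_prd_of_mem' [Infinite F] {Z Z' : Set (Matrix (Fin r) (Fin r) F)} (hZ : C Z)
    (hmul : ∀ Z Z', C Z → C Z' → C (prd Z Z')) (hprime : ∀ Z, C Z → (van Z).IsPrime)
    (hZM : ∀ M ∈ Z, M ∈ Submonoid.closure X)
    (hmin : ∀ Z' : Set (Matrix (Fin r) (Fin r) F), C Z' → (∀ M ∈ Z', M ∈ Submonoid.closure X) →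
        (van Z).height ≤ (van Z').height)
    (hX : ∀ M ∈ X, M.det ≠ 0) (hZ' : C Z') (hZM' : ∀ M ∈ Z', M ∈ Submonoid.closure X)
    {c : Matrix (Fin r) (Fin r) F} (hC : c ∈ Z') : van (prd Z {c}) = van (prd Z Z') := by
  have hp : (van (prd Z Z')).IsPrime := hprime _ (hmul _ _ hZ hZ')
  obtain ⟨m, rfl⟩ := exists_gl hX (hZM' c hC)
  symm
  apply Ideal.eq_of_le_of_height_le
  · rintro f hf _ ⟨A, hA, C', rfl, rfl⟩
    exact hf _ ⟨A, hA, _, hC, rfl⟩
  · rw [height_prd]
    exact hmin _ (hmul _ _ hZ hZ') (prd_mem hZM hZM')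

end step

/-- The monoid generated by a set of invertible matrices which is connected by sets of a class `C` and
generates the general linear group as a group contains all invertible matrices. -/
theorem closure_abs [IsAlgClosed F] {C : Set (Matrix (Fin r) (Fin r) F) → Prop} (hone : ∀ M, C {M})
    (hmul : ∀ Z Z', C Z → C Z' → C (prd Z Z')) (hprime : ∀ Z, C Z → (van Z).IsPrime)
    (hchev : ∀ Z, C Z → van Z = ⊥ → ∃ f : MvPolynomial (Fin r × Fin r) F, f ≠ 0 ∧
      ∀ M : Matrix (Fin r) (Fin r) F, ev M f ≠ 0 → M ∈ Z)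
    {X : Set (Matrix (Fin r) (Fin r) F)} (hne : X.Nonempty)
    (hX : ∀ M ∈ X, M.det ≠ 0)
    (hconn : ∀ M ∈ X, ∀ M' ∈ X, ∃ Z : Set (Matrix (Fin r) (Fin r) F), C Z ∧ (∀ N ∈ Z, N ∈ X) ∧
      M ∈ Z ∧ M' ∈ Z)
    (hgen : Subgroup.closure {g : GL (Fin r) F | (g : Matrix (Fin r) (Fin r) F) ∈ X} = ⊤)
    {M : Matrix (Fin r) (Fin r) F} (hM : M.det ≠ 0) : M ∈ Submonoid.closure X := by
  have hinf : Infinite F := inferInstance
  obtain ⟨Z, hZ, hZM, hmin⟩ := exists_minimal' (hone 1) X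
  have hp := hprime _ hZ
  have hXM : ∀ N ∈ X, N ∈ Submonoid.closure X := fun N hN => Submonoid.subset_closure hN
  -- the ideals of `Z * (m * x)` agree
  have key : ∀ m : GL (Fin r) F, (m : Matrix (Fin r) (Fin r) F) ∈ Submonoid.closure X →
      ∀ x x' : GL (Fin r) F, (x : Matrix (Fin r) (Fin r) F) ∈ X → (x' : Matrix (Fin r) (Fin r) F) ∈ X →
      m * (x * x'⁻¹) * m⁻¹ ∈ WW Z hp := by
    intro m hm x x' hx hx'
    obtain ⟨Z', hZ', hZX, h1, h2⟩ := hconn _ hx _ hx'
    have hZm : C (prd Z {(m : Matrix (Fin r) (Fin r) F)}) := hmul _ _ hZ (hone _)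
    have hZmM : ∀ N ∈ prd Z {(m : Matrix (Fin r) (Fin r) F)}, N ∈ Submonoid.closure X :=
      prd_mem hZM fun N hN => by rw [Set.mem_singleton_iff.1 hN]; exact hm
    have hmin' : ∀ Z' : Set (Matrix (Fin r) (Fin r) F), C Z' →
        (∀ M ∈ Z', M ∈ Submonoid.closure X) →
        (van (prd Z {(m : Matrix (Fin r) (Fin r) F)})).height ≤ (van Z').height := by
      intro Z' h h'
      rw [height_prd]
      exact hmin Z' h h'
    have h3 := (van_prd_of_mem' hZm hmul hprime hZmM hmin' hX hZ' (fun N hN => hXM N (hZX N hN)) h1).trans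
      (van_prd_of_mem' hZm hmul hprime hZmM hmin' hX hZ' (fun N hN => hXM N (hZX N hN)) h2).symm
    rw [mem_WW]
    intro f hf z hz
    have h4 : tw 1 (((x'⁻¹ * m⁻¹ : GL (Fin r) F)) : Matrix (Fin r) (Fin r) F) f ∈
        van (prd (prd Z {(m : Matrix (Fin r) (Fin r) F)}) {(x' : Matrix (Fin r) (Fin r) F)}) := by
      rw [van_prd_single]
      rintro _ ⟨z, hz, _, rfl, rfl⟩
      rw [ev_twR]
      have e : z * (m : Matrix (Fin r) (Fin r) F) * (x' : Matrix (Fin r) (Fin r) F) *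
          ((x'⁻¹ * m⁻¹ : GL (Fin r) F) : Matrix (Fin r) (Fin r) F) = z := by
        have e1 : (m * x' * (x'⁻¹ * m⁻¹) : GL (Fin r) F) = 1 := by group
        have e2 := congrArg (fun u : GL (Fin r) F => (u : Matrix (Fin r) (Fin r) F)) e1
        simp only [Units.val_mul, Units.val_one] at e2
        rw [Units.val_mul]
        calc _ = z * ((m : Matrix (Fin r) (Fin r) F) * (x' : Matrix (Fin r) (Fin r) F) *
            (((x'⁻¹ : GL (Fin r) F) : Matrix (Fin r) (Fin r) F) *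
              ((m⁻¹ : GL (Fin r) F) : Matrix (Fin r) (Fin r) F))) := by simp only [mul_assoc]
          _ = z := by rw [e2, mul_one]
      rw [e]
      exact hf z hz
    rw [← h3, van_prd_single] at h4
    have h5 := h4 _ ⟨z, hz, _, rfl, rfl⟩
    rw [ev_twR] at h5
    rw [← h5]
    congr 1
    simp only [Units.val_mul, mul_assoc]
  -- the subgroup `W`
  obtain ⟨y0, hy0⟩ := hne
  obtain ⟨y, rfl⟩ : ∃ m : GL (Fin r) F, (m : Matrix (Fin r) (Fin r) F) = y0 := exists_gl hX (hXM _ hy0)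
  have hyM := hXM _ hy0
  have hW : conjCore (WW Z hp) (Submonoid.closure X) = ⊤ := by
    refine all_of_cyclic _ y (fun w hw => conj_mem hyM hw) (fun w hw => conj_mem' hyM hw) ?_
    have hnorm : ∀ j : ℤ, ∀ w ∈ conjCore (WW Z hp) (Submonoid.closure X),
        y ^ j * w * (y ^ j)⁻¹ ∈ conjCore (WW Z hp) (Submonoid.closure X) := by
      intro j
      induction j using Int.induction_on with
      | zero => intro w hw; simpa using hw
      | succ i ih =>
        intro w hw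
        have h := ih _ (conj_mem hyM hw)
        have e : y ^ (i : ℤ) * (y * w * y⁻¹) * (y ^ (i : ℤ))⁻¹ =
            y ^ ((i : ℤ) + 1) * w * (y ^ ((i : ℤ) + 1))⁻¹ := by
          rw [zpow_add_one]; group
        rwa [e] at h
      | pred i ih =>
        intro w hw
        have h := ih _ (conj_mem' hyM hw)
        have e : y ^ (-(i : ℤ)) * (y⁻¹ * w * y) * (y ^ (-(i : ℤ)))⁻¹ =
            y ^ (-(i : ℤ) - 1) * w * (y ^ (-(i : ℤ) - 1))⁻¹ := by
          rw [zpow_sub_one]; group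
        rwa [e] at h
    intro g
    have hg : g ∈ Subgroup.closure {g : GL (Fin r) F | (g : Matrix (Fin r) (Fin r) F) ∈ X} := by
      rw [hgen]; trivial
    induction hg using Subgroup.closure_induction with
    | mem x hx =>
      refine ⟨x * y⁻¹, fun m hm => key m hm x y hx hy0, 1, by group⟩
    | one => exact ⟨1, one_mem _, 0, by simp⟩
    | mul g h _ _ ihg ihh =>
      obtain ⟨w, hw, j, rfl⟩ := ihg
      obtain ⟨w', hw', l, rfl⟩ := ihh
      refine ⟨w * (y ^ j * w' * (y ^ j)⁻¹), mul_mem hw (hnorm j w' hw'), j + l, ?_⟩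
      rw [zpow_add]; group
    | inv g _ ihg =>
      obtain ⟨w, hw, j, rfl⟩ := ihg
      refine ⟨y ^ (-j) * w⁻¹ * (y ^ (-j))⁻¹, hnorm (-j) _ (inv_mem hw), -j, ?_⟩
      group
  -- the ideal of `Z` is zero
  have h0 : van Z = ⊥ := by
    rw [eq_bot_iff]
    intro f hf
    rw [Ideal.mem_bot]
    obtain ⟨z, hz⟩ := nonempty_of_prime hp
    obtain ⟨z, rfl⟩ := exists_gl hX (hZM _ hz)
    apply eq_zero_of_forall
    intro N hN
    have h1 : z⁻¹ * Matrix.GeneralLinearGroup.mkOfDetNeZero N hN ∈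
        conjCore (WW Z hp) (Submonoid.closure X) := by rw [hW]; trivial
    have h2 := mem_WW.1 (h1 1 (by rw [Units.val_one]; exact one_mem _)) f hf _ hz
    have e : (z : Matrix (Fin r) (Fin r) F) *
        ((1 * (z⁻¹ * Matrix.GeneralLinearGroup.mkOfDetNeZero N hN) * 1⁻¹ : GL (Fin r) F) :
          Matrix (Fin r) (Fin r) F) = N := by
      rw [inv_one, mul_one, one_mul, ← Units.val_mul, mul_inv_cancel_left]
      rfl
    rw [e] at h2
    exact h2
  obtain ⟨f, hf0, hf⟩ := hchev _ hZ h0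
  obtain ⟨A, B, hA, hB, rfl⟩ := exists_factor hf0 hM
  exact mul_mem (hZM _ (hf A hA)) (hZM _ (hf B hB))


end Pool.Agent.P2a19dz
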