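import Pool.Agent.Lib.P2a19dz.Defs

/-!
Polynomial images of closed sets of matrices: points, products, loci, images; the block upper triangular
matrices.
-/

set_option autoImplicit false

namespace Pool.Agent.P2a19dz

open Module MvPolynomial Pool.Agent.P2a19db Pool.Agent.P2a19da

variable {F : Type*} [Field F] {n r : ℕ}

/-- the variables may be indexed by any finite type -/
private lemma cn_of_fintype {ι : Type} [Fintype ι] (S : Set (MvPolynomial ι F))
    (P : Matrix (Fin r) (Fin r) (MvPolynomial ι F)) :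
    Cn {M : Matrix (Fin r) (Fin r) F | ∃ t : ι → F, (∀ f ∈ S, eval t f = 0) ∧
      ∀ i j, M i j = eval t (P i j)} := by
  refine ⟨Fintype.card ι, (rename (Fintype.equivFin ι)) '' S,
    fun i j => rename (Fintype.equivFin ι) (P i j), ?_⟩
  ext M
  simp only [Set.mem_ofPred_eq]
  constructor
  · rintro ⟨t, ht, hM⟩
    have e : (t ∘ (Fintype.equivFin ι).symm) ∘ (Fintype.equivFin ι) = t := by
      funext i
      simp
    refine ⟨t ∘ (Fintype.equivFin ι).symm, ?_, ?_⟩
    · rintro _ ⟨f, hf, rfl⟩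
      rw [eval_rename, e]
      exact ht f hf
    · intro i j
      rw [eval_rename, e]
      exact hM i j
  · rintro ⟨t, ht, hM⟩
    refine ⟨t ∘ (Fintype.equivFin ι), ?_, ?_⟩
    · intro f hf
      rw [← eval_rename]
      exact ht _ ⟨f, hf, rfl⟩
    · intro i j
      rw [← eval_rename]
      exact hM i j

theorem Cn.single (M : Matrix (Fin r) (Fin r) F) : Cn ({M} : Set (Matrix (Fin r) (Fin r) F)) := by
  refine ⟨0, ∅, fun i j => C (M i j), ?_⟩
  ext M'
  simp only [Set.mem_singleton_iff, Set.mem_ofPred_eq, eval_C]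
  constructor
  · rintro rfl
    exact ⟨fun _ => 0, fun f hf => (Set.notMem_empty f hf).elim, fun i j => rfl⟩
  · rintro ⟨t, -, h⟩
    ext i j
    exact h i j

theorem Cn.prd {Z Z' : Set (Matrix (Fin r) (Fin r) F)} (hZ : Cn Z) (hZ' : Cn Z') :
    Cn (Pool.Agent.P2a19da.prd Z Z') := by
  obtain ⟨N, S, P, rfl⟩ := hZ
  obtain ⟨N', S', P', rfl⟩ := hZ'
  have h := cn_of_fintype (ι := Fin N ⊕ Fin N') ((rename Sum.inl) '' S ∪ (rename Sum.inr) '' S')
    (fun i j => ∑ k, rename Sum.inl (P i k) * rename Sum.inr (P' k j))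
  refine cast ?_ h
  congr 1
  ext M
  simp only [Set.mem_ofPred_eq]
  constructor
  · rintro ⟨t, ht, hM⟩
    refine ⟨Matrix.of fun i j => eval (t ∘ Sum.inl) (P i j), ⟨t ∘ Sum.inl, ?_, fun i j => rfl⟩,
      Matrix.of fun i j => eval (t ∘ Sum.inr) (P' i j), ⟨t ∘ Sum.inr, ?_, fun i j => rfl⟩, ?_⟩
    · intro f hf
      rw [← eval_rename]
      exact ht _ (Or.inl ⟨f, hf, rfl⟩)
    · intro f hf
      rw [← eval_rename]
      exact ht _ (Or.inr ⟨f, hf, rfl⟩)
    · ext i j
      rw [hM, map_sum, Matrix.mul_apply]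
      refine Finset.sum_congr rfl fun k _ => ?_
      rw [map_mul, eval_rename, eval_rename]
      rfl
  · rintro ⟨A, ⟨t, ht, hA⟩, C, ⟨t', ht', hC⟩, rfl⟩
    have e1 : Sum.elim t t' ∘ Sum.inl = t := Sum.elim_comp_inl t t'
    have e2 : Sum.elim t t' ∘ Sum.inr = t' := Sum.elim_comp_inr t t'
    refine ⟨Sum.elim t t', ?_, ?_⟩
    · rintro _ (⟨f, hf, rfl⟩ | ⟨f, hf, rfl⟩)
      · rw [eval_rename, e1]
        exact ht f hf
      · rw [eval_rename, e2]
        exact ht' f hf
    · intro i j
      rw [map_sum, Matrix.mul_apply]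
      refine Finset.sum_congr rfl fun k _ => ?_
      rw [map_mul, eval_rename, eval_rename, e1, e2, hA, hC]

theorem Cn.locus (S : Set (MvPolynomial (Fin r × Fin r) F)) (u : MvPolynomial (Fin r × Fin r) F) :
    Cn {M : Matrix (Fin r) (Fin r) F | ev M u ≠ 0 ∧ ∀ f ∈ S, ev M f = 0} := by
  have h := cn_of_fintype (ι := Option (Fin r × Fin r))
    ((rename some) '' S ∪ {X none * rename some u - 1}) (fun i j => X (some (i, j)))
  refine cast ?_ h
  congr 1
  ext M
  simp only [Set.mem_ofPred_eq]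
  constructor
  · rintro ⟨t, ht, hM⟩
    have e : ∀ f : MvPolynomial (Fin r × Fin r) F, eval t (rename some f) = ev M f := by
      intro f
      rw [eval_rename, ev]
      congr 2
      funext p
      have := hM p.1 p.2
      rw [eval_X] at this
      exact this.symm
    refine ⟨?_, ?_⟩
    · intro h0
      have h1 := ht _ (Or.inr rfl)
      rw [map_sub, map_mul, e, h0, mul_zero, map_one, zero_sub] at h1
      exact one_ne_zero (neg_eq_zero.mp h1)
    · intro f hf
      rw [← e]
      exact ht _ (Or.inl ⟨f, hf, rfl⟩)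
  · rintro ⟨hu, hS⟩
    let t : Option (Fin r × Fin r) → F := fun o => o.elim (ev M u)⁻¹ fun p => M p.1 p.2
    have e : ∀ f : MvPolynomial (Fin r × Fin r) F, eval t (rename some f) = ev M f := by
      intro f
      rw [eval_rename, ev]
      rfl
    refine ⟨t, ?_, ?_⟩
    · rintro _ (⟨f, hf, rfl⟩ | hf)
      · rw [e]
        exact hS f hf
      · rw [Set.mem_singleton_iff.mp hf, map_sub, map_mul, e, eval_X, map_one]
        change (ev M u)⁻¹ * ev M u - 1 = 0
        rw [inv_mul_cancel₀ hu, sub_self]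
    · intro i j
      rw [eval_X]
      rfl

/-- substitution -/
private lemma ev_aeval {A : Matrix (Fin n) (Fin n) F} (Q : Matrix (Fin r) (Fin r) (MvPolynomial (Fin n × Fin n) F))
    (f : MvPolynomial (Fin r × Fin r) F) :
    ev A (aeval (fun p : Fin r × Fin r => Q p.1 p.2) f) = ev (Matrix.of fun i j => ev A (Q i j)) f := by
  unfold ev
  induction f using MvPolynomial.induction_on with
  | C a => simp
  | add f g hf hg => rw [map_add, map_add, map_add, hf, hg]
  | mul_X f p hf =>
    rw [map_mul, map_mul, map_mul, hf, aeval_X, eval_X]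
    rfl

private lemma eval_aeval' {ι : Type} {t : ι → F} (P : Matrix (Fin n) (Fin n) (MvPolynomial ι F))
    (f : MvPolynomial (Fin n × Fin n) F) :
    eval t (aeval (fun p : Fin n × Fin n => P p.1 p.2) f) = ev (Matrix.of fun i j => eval t (P i j)) f := by
  unfold ev
  induction f using MvPolynomial.induction_on with
  | C a => simp
  | add f g hf hg => rw [map_add, map_add, map_add, hf, hg]
  | mul_X f p hf =>
    rw [map_mul, map_mul, map_mul, hf, aeval_X, eval_X]
    rfl

theorem Cn.image {Z : Set (Matrix (Fin n) (Fin n) F)} (hZ : Cn Z)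
    (Q : Matrix (Fin r) (Fin r) (MvPolynomial (Fin n × Fin n) F)) :
    Cn {M : Matrix (Fin r) (Fin r) F | M.det ≠ 0 ∧ ∃ A ∈ Z, ∀ i j, M i j = ev A (Q i j)} := by
  obtain ⟨N, S, P, rfl⟩ := hZ
  let R : Matrix (Fin r) (Fin r) (MvPolynomial (Option (Fin N)) F) :=
    fun i j => rename some (aeval (fun p : Fin n × Fin n => P p.1 p.2) (Q i j))
  have h := cn_of_fintype (ι := Option (Fin N)) ((rename some) '' S ∪ {X none * R.det - 1}) R
  refine cast ?_ h
  congr 1
  ext M
  simp only [Set.mem_ofPred_eq]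
  have hR : ∀ (t : Option (Fin N) → F) (i j : Fin r), eval t (R i j) =
      ev (Matrix.of fun i j => eval (t ∘ some) (P i j)) (Q i j) := by
    intro t i j
    change eval t (rename some (aeval (fun p : Fin n × Fin n => P p.1 p.2) (Q i j))) = _
    rw [eval_rename, eval_aeval']
  have hdet : ∀ (t : Option (Fin N) → F), (∀ i j, M i j = eval t (R i j)) → eval t R.det = M.det := by
    intro t ht
    rw [RingHom.map_det]
    congr 1
    ext i j
    rw [RingHom.mapMatrix_apply, Matrix.map_apply, ht i j]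
  constructor
  · rintro ⟨t, ht, hM⟩
    refine ⟨?_, Matrix.of fun i j => eval (t ∘ some) (P i j), ⟨t ∘ some, ?_, fun i j => rfl⟩, ?_⟩
    · intro h0
      have h1 := ht _ (Or.inr rfl)
      rw [map_sub, map_mul, hdet t hM, h0, mul_zero, map_one, zero_sub] at h1
      exact one_ne_zero (neg_eq_zero.mp h1)
    · intro f hf
      rw [← eval_rename]
      exact ht _ (Or.inl ⟨f, hf, rfl⟩)
    · intro i j
      rw [hM i j, hR]
  · rintro ⟨hM0, A, ⟨t, ht, hA⟩, hM⟩
    let t' : Option (Fin N) → F := fun o => o.elim (M.det)⁻¹ t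
    have e : t' ∘ some = t := rfl
    have hA' : (Matrix.of fun i j => eval (t' ∘ some) (P i j)) = A := by
      ext i j
      rw [e, hA]
      rfl
    have hM' : ∀ i j, M i j = eval t' (R i j) := by
      intro i j
      rw [hR, hA', hM]
    refine ⟨t', ?_, hM'⟩
    rintro _ (⟨f, hf, rfl⟩ | hf)
    · rw [eval_rename, e]
      exact ht f hf
    · rw [Set.mem_singleton_iff.mp hf, map_sub, map_mul, hdet t' hM', eval_X, map_one]
      change (M.det)⁻¹ * M.det - 1 = 0
      rw [inv_mul_cancel₀ hM0, sub_self]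

theorem prime_single (M : Matrix (Fin r) (Fin r) F) :
    (van ({M} : Set (Matrix (Fin r) (Fin r) F))).IsPrime := by
  refine ⟨?_, ?_⟩
  · intro h
    have h1 : (1 : MvPolynomial (Fin r × Fin r) F) ∈ van ({M} : Set (Matrix (Fin r) (Fin r) F)) := by
      rw [h]
      trivial
    have h2 : ev M (1 : MvPolynomial (Fin r × Fin r) F) = 0 := h1 M rfl
    rw [ev, map_one] at h2
    exact one_ne_zero h2
  · intro f g hfg
    have h1 : ev M (f * g) = 0 := hfg M rfl
    rw [ev_mul] at h1
    rcases mul_eq_zero.mp h1 with h2 | h2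
    · left
      rintro _ rfl
      exact h2
    · right
      rintro _ rfl
      exact h2

theorem prime_image {Z : Set (Matrix (Fin n) (Fin n) F)} (hZ : (van Z).IsPrime)
    (Q : Matrix (Fin r) (Fin r) (MvPolynomial (Fin n × Fin n) F))
    (hne : {M : Matrix (Fin r) (Fin r) F | M.det ≠ 0 ∧ ∃ A ∈ Z, ∀ i j, M i j = ev A (Q i j)}.Nonempty) :
    (van {M : Matrix (Fin r) (Fin r) F | M.det ≠ 0 ∧ ∃ A ∈ Z, ∀ i j, M i j = ev A (Q i j)}).IsPrime := by
  obtain ⟨M0, hM0, A0, hA0, hM0A⟩ := hne
  have hof : ∀ (M : Matrix (Fin r) (Fin r) F) (A : Matrix (Fin n) (Fin n) F),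
      (∀ i j, M i j = ev A (Q i j)) → (Matrix.of fun i j => ev A (Q i j)) = M := by
    intro M A h
    ext i j
    rw [h i j]
    rfl
  have hD : aeval (fun p : Fin r × Fin r => Q p.1 p.2) (gdet F r) ∉ van Z := by
    intro h
    have h1 := h A0 hA0
    rw [ev_aeval, hof M0 A0 hM0A, ev_gdet] at h1
    exact hM0 h1
  refine ⟨?_, ?_⟩
  · intro h
    have h1 : (1 : MvPolynomial (Fin r × Fin r) F) ∈ van {M : Matrix (Fin r) (Fin r) F |
        M.det ≠ 0 ∧ ∃ A ∈ Z, ∀ i j, M i j = ev A (Q i j)} := by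
      rw [h]
      trivial
    have h2 : ev M0 (1 : MvPolynomial (Fin r × Fin r) F) = 0 := h1 M0 ⟨hM0, A0, hA0, hM0A⟩
    rw [ev, map_one] at h2
    exact one_ne_zero h2
  · intro f g hfg
    have h1 : aeval (fun p : Fin r × Fin r => Q p.1 p.2) f * aeval (fun p : Fin r × Fin r => Q p.1 p.2) g *
        aeval (fun p : Fin r × Fin r => Q p.1 p.2) (gdet F r) ∈ van Z := by
      intro A hA
      rw [ev_mul, ev_mul, ev_aeval, ev_aeval, ev_aeval, ev_gdet]
      by_cases h0 : (Matrix.of fun i j => ev A (Q i j)).det = 0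
      · rw [h0, mul_zero]
      · have h2 : ev (Matrix.of fun i j => ev A (Q i j)) (f * g) = 0 :=
          hfg _ ⟨h0, A, hA, fun i j => rfl⟩
        rw [ev_mul] at h2
        rw [h2, zero_mul]
    have key : ∀ f : MvPolynomial (Fin r × Fin r) F, aeval (fun p : Fin r × Fin r => Q p.1 p.2) f ∈ van Z →
        f ∈ van {M : Matrix (Fin r) (Fin r) F | M.det ≠ 0 ∧ ∃ A ∈ Z, ∀ i j, M i j = ev A (Q i j)} := by
      rintro f hf M ⟨_, A, hA, hM⟩
      have h2 := hf A hA
      rw [ev_aeval, hof M A hM] at h2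
      exact h2
    rcases hZ.mem_or_mem h1 with h2 | h2
    · rcases hZ.mem_or_mem h2 with h3 | h3
      · exact Or.inl (key f h3)
      · exact Or.inr (key g h3)
    · exact (hD h2).elim

theorem par_cn (F : Type*) [Field F] (r d : ℕ) : Cn (par F r d) := by
  have h := Cn.locus (F := F) (r := r)
    {f | ∃ i j : Fin r, d ≤ (i : ℕ) ∧ (j : ℕ) < d ∧ f = X (i, j)} (gdet F r)
  refine cast ?_ h
  congr 1
  ext M
  simp only [par, Set.mem_ofPred_eq]
  rw [ev_gdet]
  refine and_congr_right fun _ => ?_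
  constructor
  · intro h1 i j hi hj
    have h2 := h1 _ ⟨i, j, hi, hj, rfl⟩
    rw [ev, eval_X] at h2
    exact h2
  · rintro h1 _ ⟨i, j, hi, hj, rfl⟩
    rw [ev, eval_X]
    exact h1 i j hi hj

theorem par_prime [Infinite F] (r d : ℕ) : (van (par F r d)).IsPrime := by
  classical
  have h0 : (van (Set.univ : Set (Matrix (Fin r) (Fin r) F))).IsPrime := by
    have e : van (Set.univ : Set (Matrix (Fin r) (Fin r) F)) = ⊥ := by
      rw [eq_bot_iff]
      intro f hf
      rw [Ideal.mem_bot]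
      exact eq_zero_of_forall fun M _ => hf M trivial
    rw [e]
    exact Ideal.isPrime_bot
  let Q : Matrix (Fin r) (Fin r) (MvPolynomial (Fin r × Fin r) F) :=
    fun i j => if d ≤ (i : ℕ) ∧ (j : ℕ) < d then 0 else X (i, j)
  have hQ : ∀ (A : Matrix (Fin r) (Fin r) F) (i j : Fin r),
      ev A (Q i j) = if d ≤ (i : ℕ) ∧ (j : ℕ) < d then 0 else A i j := by
    intro A i j
    by_cases h : d ≤ (i : ℕ) ∧ (j : ℕ) < d
    · have e : Q i j = 0 := if_pos h
      rw [e, if_pos h, ev, map_zero]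
    · have e : Q i j = X (i, j) := if_neg h
      rw [e, if_neg h, ev, eval_X]
  have e : par F r d = {M : Matrix (Fin r) (Fin r) F | M.det ≠ 0 ∧ ∃ A ∈ (Set.univ : Set (Matrix (Fin r) (Fin r) F)),
      ∀ i j, M i j = ev A (Q i j)} := by
    ext M
    simp only [par, Set.mem_ofPred_eq]
    refine and_congr_right fun _ => ?_
    constructor
    · intro h
      refine ⟨M, trivial, fun i j => ?_⟩
      rw [hQ]
      by_cases hij : d ≤ (i : ℕ) ∧ (j : ℕ) < d
      · rw [if_pos hij]
        exact h i j hij.1 hij.2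
      · rw [if_neg hij]
    · rintro ⟨A, _, hA⟩ i j hi hj
      rw [hA, hQ, if_pos ⟨hi, hj⟩]
  rw [e]
  refine prime_image h0 Q ⟨1, ?_⟩
  rw [← e]
  refine ⟨by rw [Matrix.det_one]; exact one_ne_zero, fun i j hi hj => ?_⟩
  apply Matrix.one_apply_ne
  intro hij
  rw [hij] at hi
  omega

end Pool.Agent.P2a19dz
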