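import Pool.Agent.Lib.P2a19dz.Defs

/-!
The identity component of a Zariski closed group.
-/

set_option autoImplicit false

namespace Pool.Agent.P2a19dz

open Module MvPolynomial Pool.Agent.P2a19db Pool.Agent.P2a19da

variable {F : Type*} [Field F] {n : ℕ}

lemma ev_tw1 (C M : Matrix (Fin n) (Fin n) F) (f : MvPolynomial (Fin n × Fin n) F) :
    ev M (tw 1 C f) = ev (M * C) f := by
  rw [ev_tw, one_mul]

lemma ev_tw2 (A M : Matrix (Fin n) (Fin n) F) (f : MvPolynomial (Fin n × Fin n) F) :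
    ev M (tw A 1 f) = ev (A * M) f := by
  rw [ev_tw, mul_one]

/-- if `f` and `g` do not vanish on a set with prime ideal, their product does not vanish -/
lemma exists_of_prime {Z : Set (Matrix (Fin n) (Fin n) F)} (hZ : (van Z).IsPrime)
    {f g : MvPolynomial (Fin n × Fin n) F} (hf : f ∉ van Z) (hg : g ∉ van Z) :
    ∃ z ∈ Z, ev z f ≠ 0 ∧ ev z g ≠ 0 := by
  by_contra hcon
  push Not at hcon
  have h1 : f * g ∈ van Z := by
    intro z hz
    rw [ev_mul]
    by_cases h : ev z f = 0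
    · rw [h, zero_mul]
    · rw [hcon z hz h, mul_zero]
  rcases hZ.mem_or_mem h1 with h | h
  · exact hf h
  · exact hg h

lemma exists_of_notMem {Z : Set (Matrix (Fin n) (Fin n) F)}
    {f : MvPolynomial (Fin n × Fin n) F} (hf : f ∉ van Z) : ∃ z ∈ Z, ev z f ≠ 0 := by
  by_contra hcon
  push Not at hcon
  exact hf hcon

/-- the product of two irreducible sets is irreducible -/
lemma comp_prime_prd {Z Z' : Set (Matrix (Fin n) (Fin n) F)} (hZ : (van Z).IsPrime)
    (hZ' : (van Z').IsPrime) : (van (prd Z Z')).IsPrime := by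
  refine ⟨?_, ?_⟩
  · intro htop
    have h1 : (1 : MvPolynomial (Fin n × Fin n) F) ∉ van Z := fun h =>
      hZ.ne_top ((Ideal.eq_top_iff_one _).2 h)
    have h2 : (1 : MvPolynomial (Fin n × Fin n) F) ∉ van Z' := fun h =>
      hZ'.ne_top ((Ideal.eq_top_iff_one _).2 h)
    obtain ⟨z, hz, _⟩ := exists_of_notMem h1
    obtain ⟨z', hz', _⟩ := exists_of_notMem h2
    have h3 : (1 : MvPolynomial (Fin n × Fin n) F) ∈ van (prd Z Z') := by rw [htop]; trivial
    have h4 := h3 _ ⟨z, hz, z', hz', rfl⟩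
    have h5 : ev (z * z') (1 : MvPolynomial (Fin n × Fin n) F) = 1 := map_one _
    rw [h5] at h4
    exact one_ne_zero h4
  · intro f g hfg
    by_contra hcon
    push Not at hcon
    obtain ⟨_, ⟨a, ha, c, hc, rfl⟩, hfa⟩ := exists_of_notMem hcon.1
    obtain ⟨_, ⟨b, hb, d, hd, rfl⟩, hgb⟩ := exists_of_notMem hcon.2
    have h1 : tw a 1 f ∉ van Z' := fun h => hfa (by
      have := h c hc
      rwa [ev_tw2] at this)
    have h2 : tw b 1 g ∉ van Z' := fun h => hgb (by
      have := h d hd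
      rwa [ev_tw2] at this)
    obtain ⟨z', hz', h3, h4⟩ := exists_of_prime hZ' h1 h2
    rw [ev_tw2] at h3 h4
    have h5 : tw 1 z' f ∉ van Z := fun h => h3 (by
      have := h a ha
      rwa [ev_tw1] at this)
    have h6 : tw 1 z' g ∉ van Z := fun h => h4 (by
      have := h b hb
      rwa [ev_tw1] at this)
    obtain ⟨z, hz, h7, h8⟩ := exists_of_prime hZ h5 h6
    rw [ev_tw1] at h7 h8
    have h9 := hfg _ ⟨z, hz, z', hz', rfl⟩
    rw [ev_mul] at h9
    exact mul_ne_zero h7 h8 h9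

/-- the point of evaluation is a prime ideal -/
lemma exists_min_at {I : Ideal (MvPolynomial (Fin n × Fin n) F)} (M : Matrix (Fin n) (Fin n) F)
    (hM : ∀ f ∈ I, ev M f = 0) : ∃ P ∈ I.minimalPrimes, ∀ f ∈ P, ev M f = 0 := by
  let e : MvPolynomial (Fin n × Fin n) F →+* F := eval fun p : Fin n × Fin n => M p.1 p.2
  have hp : (RingHom.ker e).IsPrime := RingHom.ker_isPrime e
  obtain ⟨P, hP, hle⟩ := Ideal.exists_minimalPrimes_le (I := I) (J := RingHom.ker e)
    (fun f hf => (RingHom.mem_ker).2 (hM f hf))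
  exact ⟨P, hP, fun f hf => (RingHom.mem_ker).1 (hle hf)⟩

section main

variable {G : Subgroup (GL (Fin n) F)}

/-- the elements of `G` at which all elements of `P` vanish -/
def GP (G : Subgroup (GL (Fin n) F)) (P : Ideal (MvPolynomial (Fin n × Fin n) F)) :
    Set (Matrix (Fin n) (Fin n) F) :=
  {M | M ∈ mats G ∧ ∀ f ∈ P, ev M f = 0}

lemma van_GP {P : Ideal (MvPolynomial (Fin n × Fin n) F)} (hP : P ∈ (van (mats G)).minimalPrimes) :
    van (GP G P) = P := by
  classical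
  have hfin := Ideal.finite_minimalPrimes_of_isNoetherianRing _ (van (mats G))
  have hpp : P.IsPrime := hP.1.1
  have h1 : hfin.toFinset.inf (fun P' => van (GP G P')) ≤ P := by
    intro f hf
    apply hP.1.2
    rintro M hM
    obtain ⟨P', hP', h2⟩ := exists_min_at (I := van (mats G)) M (fun f hf => hf M hM)
    have h3 : f ∈ van (GP G P') := by
      have h4 : hfin.toFinset.inf (fun P' => van (GP G P')) ≤ van (GP G P') :=
        Finset.inf_le (hfin.mem_toFinset.2 hP')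
      exact h4 hf
    exact h3 M ⟨hM, h2⟩
  rw [Ideal.IsPrime.inf_le' hpp] at h1
  obtain ⟨P', hP', hle⟩ := h1
  rw [Set.Finite.mem_toFinset] at hP'
  have h5 : P' ≤ van (GP G P') := fun f hf M hM => hM.2 f hf
  have h6 : P ≤ P' := hP.2 ⟨hP'.1.1, hP'.1.2⟩ (h5.trans hle)
  have h7 : P' = P := le_antisymm (h5.trans hle) h6
  rw [h7] at hle
  exact le_antisymm hle (fun f hf M hM => hM.2 f hf)

variable [Infinite F]

/-- translations permute the minimal primes -/
lemma comap_min {P : Ideal (MvPolynomial (Fin n × Fin n) F)} (hP : P ∈ (van (mats G)).minimalPrimes)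
    {A C : GL (Fin n) F} (hA : A ∈ G) (hC : C ∈ G) :
    P.comap (twE A C) ∈ (van (mats G)).minimalPrimes := by
  have h1 : (van (mats G)).comap (twE A C) = van (mats G) := by
    ext f
    rw [Ideal.mem_comap, twE_apply]
    constructor
    · rintro h _ ⟨w, hw, rfl⟩
      have h2 := h _ ⟨A⁻¹ * w * C⁻¹, mul_mem (mul_mem (inv_mem hA) hw) (inv_mem hC), rfl⟩
      rw [ev_tw, ← Units.val_mul, ← Units.val_mul] at h2
      have e : A * (A⁻¹ * w * C⁻¹) * C = w := by group
      rwa [e] at h2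
    · rintro h _ ⟨w, hw, rfl⟩
      rw [ev_tw, ← Units.val_mul, ← Units.val_mul]
      exact h _ ⟨_, mul_mem (mul_mem hA hw) hC, rfl⟩
  have h2 := Ideal.comap_minimalPrimes_eq_of_surjective
    (f := ((twE A C : MvPolynomial (Fin n × Fin n) F ≃+* MvPolynomial (Fin n × Fin n) F) :
      MvPolynomial (Fin n × Fin n) F →+* MvPolynomial (Fin n × Fin n) F))
    (twE A C).surjective (van (mats G))
  have h3 : (van (mats G)).comap ((twE A C : MvPolynomial (Fin n × Fin n) F ≃+* _) :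
      MvPolynomial (Fin n × Fin n) F →+* MvPolynomial (Fin n × Fin n) F) = van (mats G) := h1
  rw [h3] at h2
  rw [h2]
  exact ⟨P, hP, rfl⟩

/-- only one minimal prime vanishes at `1` -/
lemma min_unique {P P' : Ideal (MvPolynomial (Fin n × Fin n) F)}
    (hP : P ∈ (van (mats G)).minimalPrimes) (hP' : P' ∈ (van (mats G)).minimalPrimes)
    (h1 : ∀ f ∈ P, ev (1 : Matrix (Fin n) (Fin n) F) f = 0)
    (h1' : ∀ f ∈ P', ev (1 : Matrix (Fin n) (Fin n) F) f = 0) :
    P = P' ∧ P ≤ van (prd (GP G P) (GP G P')) := by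
  have hone : (1 : Matrix (Fin n) (Fin n) F) ∈ mats G := ⟨1, G.one_mem, rfl⟩
  have hR : (van (prd (GP G P) (GP G P'))).IsPrime := by
    apply comp_prime_prd
    · rw [van_GP hP]; exact hP.1.1
    · rw [van_GP hP']; exact hP'.1.1
  have hIR : van (mats G) ≤ van (prd (GP G P) (GP G P')) := by
    rintro f hf _ ⟨_, ⟨⟨a, ha, rfl⟩, _⟩, _, ⟨⟨c, hc, rfl⟩, _⟩, rfl⟩
    rw [← Units.val_mul]
    exact hf _ ⟨_, mul_mem ha hc, rfl⟩
  have hRP : van (prd (GP G P) (GP G P')) ≤ P := by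
    intro f hf
    rw [← van_GP hP]
    intro M hM
    have h2 := hf _ ⟨M, hM, 1, ⟨hone, h1'⟩, rfl⟩
    rwa [mul_one] at h2
  have hRP' : van (prd (GP G P) (GP G P')) ≤ P' := by
    intro f hf
    rw [← van_GP hP']
    intro M hM
    have h2 := hf _ ⟨1, ⟨hone, h1⟩, M, hM, rfl⟩
    rwa [one_mul] at h2
  have h3 : P ≤ van (prd (GP G P) (GP G P')) := hP.2 ⟨hR, hIR⟩ hRP
  have h4 : P' ≤ van (prd (GP G P) (GP G P')) := hP'.2 ⟨hR, hIR⟩ hRP'
  exact ⟨le_antisymm (h3.trans hRP') (h4.trans hRP), h3⟩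

theorem exists_comp (hG : ClosedGL G) : ∃ K : Subgroup (GL (Fin n) F), K ≤ G ∧ ClosedGL K ∧
    (van (mats K)).IsPrime ∧ (∀ g ∈ G, ∀ k ∈ K, g * k * g⁻¹ ∈ K) ∧
    ∃ T : Set (GL (Fin n) F), T.Finite ∧ (∀ t ∈ T, t ∈ G) ∧ ∀ g ∈ G, ∃ t ∈ T, ∃ k ∈ K, g = k * t := by
  classical
  obtain ⟨P₀, hP₀, h1⟩ := exists_min_at (I := van (mats G)) (1 : Matrix (Fin n) (Fin n) F)
    (fun f hf => hf _ ⟨1, G.one_mem, rfl⟩)
  have huniq : ∀ P ∈ (van (mats G)).minimalPrimes,
      (∀ f ∈ P, ev (1 : Matrix (Fin n) (Fin n) F) f = 0) → P = P₀ := fun P hP h =>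
    (min_unique hP hP₀ h h1).1
  have hmul := (min_unique hP₀ hP₀ h1 h1).2
  -- translations fixing the prime
  have htr : ∀ A ∈ G, ∀ C ∈ G, (∀ f ∈ P₀.comap (twE A C), ev (1 : Matrix (Fin n) (Fin n) F) f = 0) →
      ∀ f ∈ P₀, ∀ M : Matrix (Fin n) (Fin n) F, (∀ g ∈ P₀, ev M g = 0) →
        ev ((A : Matrix (Fin n) (Fin n) F) * M * (C : Matrix (Fin n) (Fin n) F)) f = 0 := by
    intro A hA C hC h f hf M hM
    have h2 := huniq _ (comap_min hP₀ hA hC) h
    rw [← h2, Ideal.mem_comap, twE_apply] at hf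
    have h3 := hM _ hf
    rwa [ev_tw] at h3
  let K : Subgroup (GL (Fin n) F) :=
    { carrier := {k | k ∈ G ∧ ∀ f ∈ P₀, ev (k : Matrix (Fin n) (Fin n) F) f = 0}
      mul_mem' := by
        rintro k l ⟨hk, hk'⟩ ⟨hl, hl'⟩
        refine ⟨mul_mem hk hl, fun f hf => ?_⟩
        rw [Units.val_mul]
        exact hmul hf _ ⟨_, ⟨⟨k, hk, rfl⟩, hk'⟩, _, ⟨⟨l, hl, rfl⟩, hl'⟩, rfl⟩
      one_mem' := ⟨G.one_mem, h1⟩
      inv_mem' := by
        rintro k ⟨hk, hk'⟩
        refine ⟨inv_mem hk, fun f hf => ?_⟩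
        have h2 := htr k⁻¹ (inv_mem hk) 1 G.one_mem (by
          intro f hf
          rw [Ideal.mem_comap, twE_apply] at hf
          have h3 : ev (k : Matrix (Fin n) (Fin n) F) (tw ((k⁻¹ : GL (Fin n) F) :
            Matrix (Fin n) (Fin n) F) ((1 : GL (Fin n) F) : Matrix (Fin n) (Fin n) F) f) = 0 :=
            hk' _ hf
          rw [ev_tw, ← Units.val_mul, ← Units.val_mul] at h3
          have e : k⁻¹ * k * 1 = 1 := by group
          rw [e] at h3
          exact h3) f hf 1 h1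
        rw [mul_one, Units.val_one, mul_one] at h2
        exact h2 }
  have hKm : ∀ k, k ∈ K ↔ k ∈ G ∧ ∀ f ∈ P₀, ev (k : Matrix (Fin n) (Fin n) F) f = 0 := fun k => Iff.rfl
  refine ⟨K, fun k hk => hk.1, ?_, ?_, ?_, ?_⟩
  · -- closed
    obtain ⟨S, hS⟩ := hG
    refine ⟨S ∪ {f | f ∈ P₀}, fun g => ?_⟩
    rw [hKm, hS]
    constructor
    · rintro ⟨h2, h3⟩ f (hf | hf)
      · exact h2 f hf
      · exact h3 f hf
    · intro h
      exact ⟨fun f hf => h f (Or.inl hf), fun f hf => h f (Or.inr hf)⟩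
  · -- irreducible
    have h2 : mats K = GP G P₀ := by
      ext M
      constructor
      · rintro ⟨k, hk, rfl⟩
        exact ⟨⟨k, hk.1, rfl⟩, hk.2⟩
      · rintro ⟨⟨k, hk, rfl⟩, h3⟩
        exact ⟨k, ⟨hk, h3⟩, rfl⟩
    rw [h2, van_GP hP₀]
    exact hP₀.1.1
  · -- normal
    rintro g hg k ⟨hk, hk'⟩
    refine ⟨mul_mem (mul_mem hg hk) (inv_mem hg), fun f hf => ?_⟩
    have h2 := htr g hg g⁻¹ (inv_mem hg) (by
      intro f hf
      rw [Ideal.mem_comap, twE_apply] at hf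
      have h3 := h1 _ hf
      rw [ev_tw, mul_one, ← Units.val_mul, mul_inv_cancel] at h3
      exact h3) f hf _ hk'
    rw [Units.val_mul, Units.val_mul]
    exact h2
  · -- finite index
    have hfin := Ideal.finite_minimalPrimes_of_isNoetherianRing _ (van (mats G))
    let rep : Ideal (MvPolynomial (Fin n × Fin n) F) → GL (Fin n) F := fun P =>
      if h : ∃ g ∈ G, P₀.comap (twE 1 g) = P then h.choose else 1
    refine ⟨rep '' (van (mats G)).minimalPrimes, hfin.image _, ?_, ?_⟩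
    · rintro _ ⟨P, _, rfl⟩
      by_cases h : ∃ g ∈ G, P₀.comap (twE 1 g) = P
      · simp only [rep, h, dif_pos]
        exact h.choose_spec.1
      · simp only [rep, h, dif_neg, not_false_eq_true]
        exact G.one_mem
    · intro g hg
      have hex : ∃ g' ∈ G, P₀.comap (twE 1 g') = P₀.comap (twE 1 g) := ⟨g, hg, rfl⟩
      obtain ⟨t, ht⟩ : ∃ t, t = rep (P₀.comap (twE 1 g)) := ⟨_, rfl⟩
      have ht2 : t ∈ G ∧ P₀.comap (twE 1 t) = P₀.comap (twE 1 g) := by
        rw [ht]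
        simp only [rep, hex, dif_pos]
        exact hex.choose_spec
      refine ⟨t, ⟨_, comap_min hP₀ G.one_mem hg, ht.symm⟩, g * t⁻¹,
        ⟨mul_mem hg (inv_mem ht2.1), fun f hf => ?_⟩, by group⟩
      have h2 : twE 1 t⁻¹ f ∈ P₀.comap (twE 1 t) := by
        rw [Ideal.mem_comap, twE_apply, twE_apply]
        rw [tw_tw]
        · exact hf
        · rw [Units.val_one, one_mul]
        · rw [Units.mul_inv]
      rw [ht2.2, Ideal.mem_comap, twE_apply] at h2
      have h3 := h1 _ h2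
      rw [twE_apply, ev_tw, ev_tw, Units.val_one, one_mul, one_mul, one_mul, ← Units.val_mul] at h3
      exact h3

end main

end Pool.Agent.P2a19dz
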