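import Pool.Agent.Lib.P2a19dz.Chev2
import Pool.Agent.Lib.P2a19dz.Cn

/-!
Descent of a factorisation of the general linear group to a normal subgroup of finite index.
-/

set_option autoImplicit false

namespace Pool.Agent.P2a19dz

open Module MvPolynomial Pool.Agent.P2a19db Pool.Agent.P2a19da

variable {F : Type*} [Field F]

theorem cover_descend [IsAlgClosed F] {n : ℕ} {G K : Subgroup (GL (Fin n) F)}
    {P : Set (Matrix (Fin n) (Fin n) F)} (hKG : K ≤ G) (hKc : Cn (mats K))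
    (hKp : (van (mats K)).IsPrime) (hPc : Cn P) (hPp : (van P).IsPrime)
    (hP1 : ∀ M ∈ P, M.det ≠ 0)
    (hPm : ∀ p q : GL (Fin n) F, (p : Matrix (Fin n) (Fin n) F) ∈ P →
      (q : Matrix (Fin n) (Fin n) F) ∈ P → ((p * q⁻¹ : GL (Fin n) F) : Matrix (Fin n) (Fin n) F) ∈ P)
    (hn : ∀ g ∈ G, ∀ k ∈ K, g * k * g⁻¹ ∈ K) {T : Set (GL (Fin n) F)} (hTf : T.Finite)
    (hTG : ∀ t ∈ T, t ∈ G) (hGT : ∀ g ∈ G, ∃ t ∈ T, ∃ k ∈ K, g = k * t)
    (hGP : ∀ g : GL (Fin n) F, ∃ h ∈ G, ∃ p : GL (Fin n) F,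
      (p : Matrix (Fin n) (Fin n) F) ∈ P ∧ g = h * p) (g : GL (Fin n) F) :
    ∃ k ∈ K, ∃ p : GL (Fin n) F, (p : Matrix (Fin n) (Fin n) F) ∈ P ∧ g = k * p := by
  classical
  haveI : Infinite F := IsAlgClosed.instInfinite
  obtain ⟨Y, hY⟩ : ∃ Y : GL (Fin n) F → Set (Matrix (Fin n) (Fin n) F), ∀ g M, M ∈ Y g ↔
      ∃ k ∈ K, ∃ p : GL (Fin n) F, (p : Matrix (Fin n) (Fin n) F) ∈ P ∧
        M = ((k * g * p : GL (Fin n) F) : Matrix (Fin n) (Fin n) F) := ⟨fun g => {M | _}, fun g M => Iff.rfl⟩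
  have hYe : ∀ g : GL (Fin n) F, Y g = prd (prd (mats K) {(g : Matrix (Fin n) (Fin n) F)}) P := by
    intro g
    ext M
    rw [hY]
    constructor
    · rintro ⟨k, hk, p, hp, rfl⟩
      refine ⟨_, ⟨_, ⟨k, hk, rfl⟩, _, rfl, rfl⟩, _, hp, ?_⟩
      rw [Units.val_mul, Units.val_mul]
    · rintro ⟨_, ⟨_, ⟨k, hk, rfl⟩, _, rfl, rfl⟩, q, hq, rfl⟩
      refine ⟨k, hk, Matrix.GeneralLinearGroup.mkOfDetNeZero q (hP1 q hq), hq, ?_⟩
      rw [Units.val_mul, Units.val_mul]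
      rfl
  have hYc : ∀ g : GL (Fin n) F, Cn (Y g) := by
    intro g
    rw [hYe]
    exact Cn.prd (Cn.prd hKc (Cn.single _)) hPc
  have hinv : ∀ p : GL (Fin n) F, (p : Matrix (Fin n) (Fin n) F) ∈ P →
      ((p⁻¹ : GL (Fin n) F) : Matrix (Fin n) (Fin n) F) ∈ P := by
    intro p hp
    have h1 := hPm p p hp hp
    have h2 := hPm _ p h1 hp
    rwa [mul_inv_cancel, one_mul] at h2
  have hmul : ∀ p q : GL (Fin n) F, (p : Matrix (Fin n) (Fin n) F) ∈ P →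
      (q : Matrix (Fin n) (Fin n) F) ∈ P → ((p * q : GL (Fin n) F) : Matrix (Fin n) (Fin n) F) ∈ P := by
    intro p q hp hq
    have h := hPm p q⁻¹ hp (hinv q hq)
    rwa [inv_inv] at h
  -- one of the sets is dense
  obtain ⟨t, ht, ht0⟩ : ∃ t ∈ T, van (Y t) = ⊥ := by
    by_contra hc
    push Not at hc
    have h1 : ∀ t : GL (Fin n) F, ∃ f : MvPolynomial (Fin n × Fin n) F, f ≠ 0 ∧
        (t ∈ T → f ∈ van (Y t)) := by
      intro t
      by_cases ht : t ∈ T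
      · obtain ⟨f, hf, hf0⟩ := Submodule.exists_mem_ne_zero_of_ne_bot (hc t ht)
        exact ⟨f, hf0, fun _ => hf⟩
      · exact ⟨1, one_ne_zero, fun h => absurd h ht⟩
    choose f hf0 hf using h1
    have h2 : ∏ t ∈ hTf.toFinset, f t ≠ 0 := Finset.prod_ne_zero_iff.2 fun t _ => hf0 t
    apply h2
    apply eq_zero_of_forall
    intro M hM
    obtain ⟨h, hh, p, hp, e⟩ := hGP (Matrix.GeneralLinearGroup.mkOfDetNeZero M hM)
    obtain ⟨t, ht, k, hk, rfl⟩ := hGT h hh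
    have h3 : M ∈ Y t := (hY t M).2 ⟨k, hk, p, hp, by rw [← e]; rfl⟩
    have h4 : ev M (∏ t ∈ hTf.toFinset, f t) = ∏ t ∈ hTf.toFinset, ev M (f t) := map_prod _ _ _
    rw [h4]
    exact Finset.prod_eq_zero (hTf.mem_toFinset.2 ht) (hf t ht M h3)
  -- all of them are dense
  have hall : ∀ g : GL (Fin n) F, van (Y g) = ⊥ := by
    intro g
    obtain ⟨g', hg', p, hp, rfl⟩ := hGP g
    rw [eq_bot_iff]
    intro f hf
    have h1 : tw ((g' * t⁻¹ : GL (Fin n) F) : Matrix (Fin n) (Fin n) F) 1 f ∈ van (Y t) := by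
      intro M hM
      obtain ⟨k, hk, q, hq, rfl⟩ := (hY _ _).1 hM
      rw [ev_tw, mul_one, ← Units.val_mul]
      apply hf
      rw [hY]
      refine ⟨g' * t⁻¹ * k * (g' * t⁻¹)⁻¹, hn _ (mul_mem hg' (inv_mem (hTG t ht))) k hk, p⁻¹ * q,
        hmul _ _ (hinv p hp) hq, ?_⟩
      congr 1
      group
    rw [ht0] at h1
    have h2 := (Submodule.mem_bot _).1 h1
    have h3 : tw (((g' * t⁻¹ : GL (Fin n) F)⁻¹ : GL (Fin n) F) : Matrix (Fin n) (Fin n) F) 1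
        (tw ((g' * t⁻¹ : GL (Fin n) F) : Matrix (Fin n) (Fin n) F) 1 f) = f :=
      tw_tw (Units.mul_inv _) (mul_one _) f
    rw [← h3, h2]
    rw [Ideal.mem_bot]
    exact map_zero _
  obtain ⟨f₁, hf₁, h₁⟩ := chevalley2 (hYc 1) (hall 1)
  obtain ⟨f₂, hf₂, h₂⟩ := chevalley2 (hYc g) (hall g)
  obtain ⟨M, hM⟩ := exists_ev_ne_zero (mul_ne_zero hf₁ hf₂)
  rw [ev_mul] at hM
  obtain ⟨k, hk, p, hp, e₁⟩ := (hY _ _).1 (h₁ M (mul_ne_zero_iff.1 hM).1)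
  obtain ⟨k', hk', p', hp', e₂⟩ := (hY _ _).1 (h₂ M (mul_ne_zero_iff.1 hM).2)
  have e : k * 1 * p = k' * g * p' := Units.ext (e₁.symm.trans e₂)
  refine ⟨k'⁻¹ * k, mul_mem (inv_mem hk') hk, p * p'⁻¹, hPm p p' hp hp', ?_⟩
  calc g = k'⁻¹ * (k' * g * p') * p'⁻¹ := by group
    _ = k'⁻¹ * k * (p * p'⁻¹) := by rw [← e]; group

end Pool.Agent.P2a19dz
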