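import Pool.Agent.Lib.P2a19da.Grp

/-!
Polynomial images of closed sets of matrices, Zariski closed groups.
-/

set_option autoImplicit false

namespace Pool.Agent.P2a19dz

open Module MvPolynomial Pool.Agent.P2a19db Pool.Agent.P2a19da

section matrices

variable {F : Type*} [Field F] {r : ℕ}

/-- `Z` is the image of a closed set under a polynomial map -/
def Cn (Z : Set (Matrix (Fin r) (Fin r) F)) : Prop :=
  ∃ (N : ℕ) (S : Set (MvPolynomial (Fin N) F)) (P : Matrix (Fin r) (Fin r) (MvPolynomial (Fin N) F)),
    Z = {M | ∃ t : Fin N → F, (∀ f ∈ S, eval t f = 0) ∧ ∀ i j, M i j = eval t (P i j)}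

/-- the subgroup `K` of the general linear group is given by polynomial equations -/
def ClosedGL (K : Subgroup (GL (Fin r) F)) : Prop :=
  ∃ S : Set (MvPolynomial (Fin r × Fin r) F), ∀ g : GL (Fin r) F,
    g ∈ K ↔ ∀ f ∈ S, ev (g : Matrix (Fin r) (Fin r) F) f = 0

/-- the block upper triangular matrices: the stabiliser of the span of the first `d` basis vectors -/
def par (F : Type*) [Field F] (r d : ℕ) : Set (Matrix (Fin r) (Fin r) F) :=
  {M | M.det ≠ 0 ∧ ∀ i j : Fin r, d ≤ (i : ℕ) → (j : ℕ) < d → M i j = 0}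

end matrices

section groups

variable {F V : Type*} [Field F] [AddCommGroup V] [Module F V]

/-- `G` is a Zariski closed subgroup of the general linear group: in some basis it is given by
polynomial equations in the matrix entries -/
def ZarClosed (G : Subgroup (V ≃ₗ[F] V)) : Prop :=
  ∃ (n : ℕ) (b : Basis (Fin n) F V) (S : Set (MvPolynomial (Fin n × Fin n) F)), ∀ g : V ≃ₗ[F] V,
    g ∈ G ↔ ∀ f ∈ S, ev (LinearMap.toMatrix b b (g : V →ₗ[F] V)) f = 0

end groups

end Pool.Agent.P2a19dz
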