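import Pool.Agent.Lib.P2a19dz.Defs
import Pool.Agent.Lib.P2a19da.Fin

/-!
The full group is covered by a transitive group and the stabiliser of a flag member.
-/

set_option autoImplicit false

namespace Pool.Agent.P2a19dz

open Module MvPolynomial Pool.Agent.P2a19db Pool.Agent.P2a19da

variable {F V : Type*} [Field F] [AddCommGroup V] [Module F V] {n d : ℕ}

/-- the span of the first `d` vectors of the basis -/
def sp0 (b : Basis (Fin n) F V) (d : ℕ) : Submodule F V :=
  Submodule.span F (b '' {j : Fin n | (j : ℕ) < d})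

lemma mem_sp0 (b : Basis (Fin n) F V) (v : V) :
    v ∈ sp0 b d ↔ ∀ i : Fin n, d ≤ (i : ℕ) → b.repr v i = 0 := by
  rw [sp0, Basis.mem_span_image]
  constructor
  · intro h i hi
    by_contra h0
    have h1 : i ∈ ((b.repr v).support : Set (Fin n)) := Finsupp.mem_support_iff.2 h0
    have h2 : (i : ℕ) < d := h h1
    omega
  · intro h i hi
    have h1 : b.repr v i ≠ 0 := Finsupp.mem_support_iff.1 hi
    by_contra h2
    exact h1 (h i (not_lt.1 h2))

lemma finrank_sp0 (b : Basis (Fin n) F V) (hd : d ≤ n) : finrank F (sp0 b d) = d := by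
  have h1 : LinearIndependent F (fun j : {j : Fin n | (j : ℕ) < d} => b (j : Fin n)) :=
    b.linearIndependent.comp _ Subtype.val_injective
  have h2 := finrank_span_eq_card h1
  have h3 : Set.range (fun j : {j : Fin n | (j : ℕ) < d} => b (j : Fin n)) =
      b '' {j : Fin n | (j : ℕ) < d} := by
    rw [Set.image_eq_range]
  rw [h3] at h2
  rw [sp0, h2]
  have h4 : Fintype.card {j : Fin n | (j : ℕ) < d} = d := by
    rw [Fintype.card_congr (β := Fin d)
      { toFun := fun j => ⟨(j.1 : ℕ), j.2⟩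
        invFun := fun j => ⟨⟨(j : ℕ), lt_of_lt_of_le j.2 hd⟩, j.2⟩
        left_inv := fun j => rfl
        right_inv := fun j => rfl }, Fintype.card_fin]
  exact h4

lemma mem_par [FiniteDimensional F V] (b : Basis (Fin n) F V) (u : V ≃ₗ[F] V) :
    ((mat b u : GL (Fin n) F) : Matrix (Fin n) (Fin n) F) ∈ par F n d ↔
      (sp0 b d).map (u : V →ₗ[F] V) = sp0 b d := by
  have h1 : ((mat b u : GL (Fin n) F) : Matrix (Fin n) (Fin n) F) ∈ par F n d ↔
      (sp0 b d).map (u : V →ₗ[F] V) ≤ sp0 b d := by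
    constructor
    · rintro ⟨-, h⟩
      rw [sp0, Submodule.map_span, Submodule.span_le]
      rintro _ ⟨_, ⟨j, hj, rfl⟩, rfl⟩
      change u (b j) ∈ sp0 b d
      rw [mem_sp0]
      intro i hi
      have h2 := h i j hi hj
      rw [mat_coe, LinearMap.toMatrix_apply] at h2
      exact h2
    · intro h
      refine ⟨?_, ?_⟩
      · rw [mat_coe]
        exact det_toMatrix_ne b u
      · intro i j hi hj
        rw [mat_coe, LinearMap.toMatrix_apply]
        have h2 : u (b j) ∈ sp0 b d :=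
          h ⟨b j, Submodule.subset_span ⟨j, hj, rfl⟩, rfl⟩
        exact (mem_sp0 b _).1 h2 i hi
  rw [h1]
  refine ⟨fun h => Submodule.eq_of_le_of_finrank_eq h ?_, fun h => h.le⟩
  exact LinearEquiv.finrank_map_eq u (sp0 b d)

lemma map_mul' (u w : V ≃ₗ[F] V) (U : Submodule F V) :
    U.map ((u * w : V ≃ₗ[F] V) : V →ₗ[F] V) = (U.map (w : V →ₗ[F] V)).map (u : V →ₗ[F] V) := by
  rw [← Submodule.map_comp]
  rfl

lemma map_inv' (u : V ≃ₗ[F] V) {U W : Submodule F V} (h : U.map (u : V →ₗ[F] V) = W) :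
    W.map ((u⁻¹ : V ≃ₗ[F] V) : V →ₗ[F] V) = U := by
  rw [← h, ← map_mul', inv_mul_cancel]
  exact Submodule.map_id U

lemma mat_inj (b : Basis (Fin n) F V) : Function.Injective (mat b) := by
  intro u w h
  have h1 := congrArg (fun g : GL (Fin n) F => (g : Matrix (Fin n) (Fin n) F)) h
  simp only [mat_coe] at h1
  have h2 := (LinearMap.toMatrix b b).injective h1
  exact LinearEquiv.toLinearMap_injective h2

theorem cover_of_trans [FiniteDimensional F V] (b : Basis (Fin n) F V) (hd : d ≤ n)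
    {G : Subgroup (V ≃ₗ[F] V)} (h : TransOn G d) : ∀ g : GL (Fin n) F, ∃ h ∈ G.map (mat b),
      ∃ p : GL (Fin n) F, (p : Matrix (Fin n) (Fin n) F) ∈ par F n d ∧ g = h * p := by
  intro g
  obtain ⟨u, rfl⟩ := mat_surj b g
  obtain ⟨k, hk, hkU⟩ := h (sp0 b d) ((sp0 b d).map (u : V →ₗ[F] V)) (finrank_sp0 b hd)
    ((LinearEquiv.finrank_map_eq u (sp0 b d)).trans (finrank_sp0 b hd))
  refine ⟨mat b k, ⟨k, hk, rfl⟩, mat b (k⁻¹ * u), ?_, ?_⟩
  · rw [mem_par, map_mul', ← hkU]
    exact map_inv' k rfl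
  · rw [← map_mul, mul_inv_cancel_left]

theorem trans_of_cover [FiniteDimensional F V] (b : Basis (Fin n) F V) (hd : d ≤ n)
    {K : Subgroup (V ≃ₗ[F] V)} (h : ∀ g : GL (Fin n) F, ∃ k ∈ K.map (mat b),
      ∃ p : GL (Fin n) F, (p : Matrix (Fin n) (Fin n) F) ∈ par F n d ∧ g = k * p) :
    TransOn K d := by
  have key : ∀ U : Submodule F V, finrank F U = d → ∃ k ∈ K,
      (sp0 b d).map ((k : V ≃ₗ[F] V) : V →ₗ[F] V) = U := by
    intro U hU
    have e : sp0 b d ≃ₗ[F] U := LinearEquiv.ofFinrankEq _ _ ((finrank_sp0 b hd).trans hU.symm)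
    obtain ⟨u, hu⟩ := exists_aut_extend (sp0 b d) (U.subtype ∘ₗ (e : sp0 b d →ₗ[F] U))
      (Subtype.val_injective.comp e.injective)
    have hmap : (sp0 b d).map (u : V →ₗ[F] V) = U := by
      ext v
      constructor
      · rintro ⟨x, hx, rfl⟩
        have h1 := hu ⟨x, hx⟩
        change u x ∈ U
        rw [h1]
        exact (e ⟨x, hx⟩).2
      · intro hv
        refine ⟨(e.symm ⟨v, hv⟩ : sp0 b d), (e.symm ⟨v, hv⟩).2, ?_⟩
        have h1 := hu (e.symm ⟨v, hv⟩)
        change u _ = v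
        rw [h1]
        simp
    obtain ⟨_, ⟨k, hk, rfl⟩, p, hp, hg⟩ := h (mat b u)
    obtain ⟨q, rfl⟩ := mat_surj b p
    rw [← map_mul] at hg
    have h2 : u = k * q := mat_inj b hg
    refine ⟨k, hk, ?_⟩
    rw [mem_par] at hp
    rw [← hmap, h2, map_mul', hp]
  intro U W hU hW
  obtain ⟨k, hk, hkU⟩ := key U hU
  obtain ⟨k', hk', hkW⟩ := key W hW
  refine ⟨k' * k⁻¹, K.mul_mem hk' (K.inv_mem hk), ?_⟩
  rw [map_mul', map_inv' k hkU, hkW]

theorem par_mul {F : Type*} [Field F] {n d : ℕ} (p q : GL (Fin n) F)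
    (hp : (p : Matrix (Fin n) (Fin n) F) ∈ par F n d)
    (hq : (q : Matrix (Fin n) (Fin n) F) ∈ par F n d) :
    ((p * q⁻¹ : GL (Fin n) F) : Matrix (Fin n) (Fin n) F) ∈ par F n d := by
  obtain ⟨u, rfl⟩ := mat_surj (Pi.basisFun F (Fin n)) p
  obtain ⟨w, rfl⟩ := mat_surj (Pi.basisFun F (Fin n)) q
  rw [mem_par] at hp hq
  rw [← map_inv, ← map_mul, mem_par, map_mul', map_inv' w hq, hp]

end Pool.Agent.P2a19dz
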