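import Pool.Agent.Lib.P2a19dz.Clos
import Pool.Agent.Lib.P2a19dz.Cn
import Pool.Agent.Lib.P2a19dz.Chev2
import Pool.Agent.Lib.P2a19dz.Comp
import Pool.Agent.Lib.P2a19dz.Cover
import Pool.Agent.Lib.P2a19dz.Desc
import Pool.Agent.Lib.P2a19da.Fin

/-!
The criterion for Zariski closed groups over an algebraically closed field.
-/

set_option autoImplicit false

namespace Pool.Agent.P2a19dz

open Module MvPolynomial Pool.Agent.P2a19db Pool.Agent.P2a19da

/-- the invertible compressions of the elements of `K` -/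
def cmp {F V : Type*} [Field F] [AddCommGroup V] [Module F V] (a : Module.End F V)
    (K : Subgroup (V ≃ₗ[F] V)) {r : ℕ} (b : Basis (Fin r) F (LinearMap.range a)) :
    Set (Matrix (Fin r) (Fin r) F) :=
  {M | M.det ≠ 0 ∧ ∃ k ∈ K, M = LinearMap.toMatrix b b (mm a (k : V →ₗ[F] V))}

theorem pair_of_irred {F V : Type*} [Field F] [IsAlgClosed F] [AddCommGroup V] [Module F V]
    [FiniteDimensional F V] {a : Module.End F V} (ha : ¬ IsUnit a) {G : Subgroup (V ≃ₗ[F] V)}
    (h1 : TransOn G (finrank F (LinearMap.range a))) (h2 : TransOn G (finrank F (LinearMap.ker a)))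
    (hX : ∀ b : Basis (Fin (finrank F (LinearMap.range a))) F (LinearMap.range a),
      (cmp a G b).Nonempty → (van (cmp a G b)).IsPrime ∧ Cn (cmp a G b)) :
    IsAutPair a G := by
  rw [criterion ha G]
  refine ⟨h1, h2, ?_⟩
  have hK : LinearMap.ker a ≠ ⊥ := fun h => ha ((LinearMap.isUnit_iff_ker_eq_bot a).2 h)
  have hinf : Infinite F := IsAlgClosed.instInfinite
  let b := finBasis F (LinearMap.range a)
  let X : Set (Matrix (Fin (finrank F (LinearMap.range a))) (Fin (finrank F (LinearMap.range a))) F) :=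
    cmp a G b
  -- `X` is nonempty
  have hne : X.Nonempty := by
    obtain ⟨σ, hσ⟩ := exists_section a
    have hσinj : Function.Injective σ := fun i j hij => by
      have := congrArg a hij
      rw [hσ, hσ] at this
      exact Subtype.ext this
    obtain ⟨g, hg, hgW⟩ := h1 (LinearMap.range a) (LinearMap.range σ) rfl
      (LinearMap.finrank_range_of_inj hσinj)
    obtain ⟨u, hu⟩ := mm_equiv (a := a) (x := (g : V →ₗ[F] V)) (by
      intro i hi
      have h3 : g (i : V) ∈ (LinearMap.range a).map (g : V →ₗ[F] V) := ⟨i, i.2, rfl⟩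
      rw [hgW] at h3
      obtain ⟨j, hj⟩ := h3
      change a (g (i : V)) = 0 at hi
      rw [← hj, hσ] at hi
      have hj0 : j = 0 := Subtype.ext hi
      rw [hj0, map_zero] at hj
      exact Subtype.ext (g.map_eq_zero_iff.1 hj.symm))
    refine ⟨LinearMap.toMatrix b b (mm a (g : V →ₗ[F] V)), ?_, g, hg, rfl⟩
    rw [← hu]
    exact det_toMatrix_ne b u
  have hconn : ∀ M ∈ X, ∀ M' ∈ X, ∃ Z : Set (Matrix (Fin (finrank F (LinearMap.range a)))
      (Fin (finrank F (LinearMap.range a))) F), ((van Z).IsPrime ∧ Cn Z) ∧ (∀ N ∈ Z, N ∈ X) ∧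
        M ∈ Z ∧ M' ∈ Z := by
    intro M hM M' hM'
    exact ⟨X, hX b hne, fun N hN => hN, hM, hM'⟩
  have hgen : Subgroup.closure {g : GL (Fin (finrank F (LinearMap.range a))) F |
      (g : Matrix _ _ F) ∈ X} = ⊤ := by
    rw [eq_top_iff]
    intro g _
    obtain ⟨u, rfl⟩ := mat_surj b g
    set H := Subgroup.closure {g : GL (Fin (finrank F (LinearMap.range a))) F |
      (g : Matrix _ _ F) ∈ X} with hH
    have hU : ∀ g ∈ G, ∀ u : LinearMap.range a ≃ₗ[F] LinearMap.range a,
        (u : LinearMap.range a →ₗ[F] LinearMap.range a) = mm a (g : V →ₗ[F] V) →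
          u ∈ H.comap (mat b) := by
      intro g hg u hu
      rw [Subgroup.mem_comap]
      apply Subgroup.subset_closure
      refine ⟨?_, g, hg, ?_⟩
      · rw [mat_coe]
        exact det_toMatrix_ne b u
      · rw [mat_coe, hu]
    exact gen_top (H.comap (mat b)) (fun p φ y hy => key h1 h2 hK _ hU p φ y hy) u
  -- every automorphism of the range is a product of compressions
  have hall : ∀ u : LinearMap.range a ≃ₗ[F] LinearMap.range a,
      ((u : LinearMap.range a →ₗ[F] LinearMap.range a) : Module.End F _) ∈ Mst a G := by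
    intro u
    have h3 := closure_abs (C := fun Z => (van Z).IsPrime ∧ Cn Z)
      (fun M => ⟨prime_one M, Cn.single M⟩) (fun Z Z' h h' => ⟨prime_prd h.1 h'.1, Cn.prd h.2 h'.2⟩)
      (fun Z h => h.1) (fun Z h h0 => chevalley2 h.2 h0) hne (fun M hM => hM.1) hconn hgen (det_toMatrix_ne b u)
    have h4 : ∀ M ∈ Submonoid.closure X, ∃ μ ∈ Mst a G, LinearMap.toMatrix b b μ = M := by
      intro M hM
      induction hM using Submonoid.closure_induction with
      | mem M hM =>
        obtain ⟨-, k, hk, rfl⟩ := hM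
        exact ⟨_, mm_mem_Mst hk, rfl⟩
      | one => exact ⟨1, one_mem _, LinearMap.toMatrix_one b⟩
      | mul M N _ _ ihM ihN =>
        obtain ⟨μ, hμ, rfl⟩ := ihM
        obtain ⟨ν, hν, rfl⟩ := ihN
        exact ⟨μ * ν, mul_mem hμ hν, LinearMap.toMatrix_mul b _ _⟩
    obtain ⟨μ, hμ, e⟩ := h4 _ h3
    have h5 : μ = (u : LinearMap.range a →ₗ[F] LinearMap.range a) :=
      (LinearMap.toMatrix b b).injective e
    rw [← h5]
    exact hμ
  -- regularity
  intro g hg hr
  have hrange : LinearMap.range (a * (g : V →ₗ[F] V) * a) = LinearMap.range a := by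
    refine Submodule.eq_of_le_of_finrank_eq (by rw [aga_eq]; exact ext_range_le _ _) hr
  have hsurj : Function.Surjective (mm a (g : V →ₗ[F] V)) := by
    intro i
    have hi : (i : V) ∈ LinearMap.range (a * (g : V →ₗ[F] V) * a) := by rw [hrange]; exact i.2
    obtain ⟨v, hv⟩ := hi
    exact ⟨⟨a v, ⟨v, rfl⟩⟩, Subtype.ext hv⟩
  have hinj : Function.Injective (mm a (g : V →ₗ[F] V)) := LinearMap.injective_iff_surjective.2 hsurj
  let u := LinearEquiv.ofInjectiveEndo (mm a (g : V →ₗ[F] V)) hinj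
  have hu : (u : LinearMap.range a →ₗ[F] LinearMap.range a) = mm a (g : V →ₗ[F] V) := rfl
  have hμ := hall (u⁻¹ * u⁻¹ * u⁻¹)
  refine ⟨(g : V →ₗ[F] V) * ext a ((u⁻¹ * u⁻¹ * u⁻¹ : LinearMap.range a ≃ₗ[F] LinearMap.range a) :
    LinearMap.range a →ₗ[F] LinearMap.range a) * (g : V →ₗ[F] V),
    mul_mem (mul_mem (g_mem hg) (ext_mem hμ)) (g_mem hg), ?_⟩
  rw [aga_eq, ext_mul, mm_ext, ← hu]
  congr 1
  rw [← coe_mul', ← coe_mul', ← coe_mul', ← coe_mul']
  congr 1
  group

section

variable {F V : Type*} [Field F] [AddCommGroup V] [Module F V] [FiniteDimensional F V]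

/-- the compression in terms of the matrix entries -/
noncomputable def Qm (a : Module.End F V) {n r : ℕ} (b : Basis (Fin n) F V)
    (c : Basis (Fin r) F (LinearMap.range a)) :
    Matrix (Fin r) (Fin r) (MvPolynomial (Fin n × Fin n) F) :=
  fun i j => ∑ l, ∑ m, C (c.repr (a.rangeRestrict (b l)) i * b.repr (c j : V) m) * X (l, m)

omit [FiniteDimensional F V] in
lemma ev_Qm (a : Module.End F V) {n r : ℕ} (b : Basis (Fin n) F V)
    (c : Basis (Fin r) F (LinearMap.range a)) (u : V →ₗ[F] V) (i j : Fin r) :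
    ev (LinearMap.toMatrix b b u) (Qm a b c i j) = LinearMap.toMatrix c c (mm a u) i j := by
  have h1 : u (c j : V) = ∑ l, b.repr (u (c j : V)) l • b l := (b.sum_repr _).symm
  have h2 : ∀ l, b.repr (u (c j : V)) l = ∑ m, LinearMap.toMatrix b b u l m * b.repr (c j : V) m := by
    intro l
    rw [← LinearMap.toMatrix_mulVec_repr b b u (c j : V)]
    rfl
  have h3 : mm a u (c j) = a.rangeRestrict (u (c j : V)) := rfl
  rw [LinearMap.toMatrix_apply, h3, h1, map_sum, map_sum, Finsupp.finsetSum_apply]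
  unfold ev Qm
  rw [map_sum]
  refine Finset.sum_congr rfl fun l _ => ?_
  rw [map_smul, map_smul, Finsupp.smul_apply, smul_eq_mul, h2 l, map_sum, Finset.sum_mul]
  refine Finset.sum_congr rfl fun m _ => ?_
  rw [map_mul, eval_C, eval_X]
  ring

omit [FiniteDimensional F V] in
lemma cmp_eq (a : Module.End F V) (K : Subgroup (V ≃ₗ[F] V)) {n r : ℕ} (b : Basis (Fin n) F V)
    (c : Basis (Fin r) F (LinearMap.range a)) :
    cmp a K c = {M : Matrix (Fin r) (Fin r) F | M.det ≠ 0 ∧
      ∃ A ∈ mats (K.map (mat b)), ∀ i j, M i j = ev A (Qm a b c i j)} := by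
  ext M
  constructor
  · rintro ⟨h, k, hk, rfl⟩
    exact ⟨h, _, ⟨mat b k, ⟨k, hk, rfl⟩, rfl⟩, fun i j => (ev_Qm a b c (k : V →ₗ[F] V) i j).symm⟩
  · rintro ⟨h, _, ⟨_, ⟨k, hk, rfl⟩, rfl⟩, e⟩
    refine ⟨h, k, hk, ?_⟩
    ext i j
    rw [e i j]
    exact ev_Qm a b c (k : V →ₗ[F] V) i j

omit [FiniteDimensional F V] in
lemma pair_mono {a : Module.End F V} (hK : LinearMap.ker a ≠ ⊥) {G K : Subgroup (V ≃ₗ[F] V)}
    (hKG : K ≤ G) (h : IsAutPair a K) : IsAutPair a G := by
  unfold IsAutPair at h ⊢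
  apply Set.eq_of_subset_of_subset
  · rintro x ⟨hx, hxG⟩
    obtain ⟨v, hv, hxv⟩ := exists_ker_of_mem hK hx hxG
    exact ⟨gen_mono le_top hx, not_unit_of_kernel hv hxv ⊤⟩
  · intro x hx
    have hx' := hx
    rw [← h] at hx'
    refine ⟨gen_mono hKG hx'.1, ?_⟩
    rintro ⟨g, hg, e⟩
    exact hx.2 ⟨g, trivial, e⟩

/-- The criterion for Zariski closed groups over an algebraically closed field. -/
theorem crit_closed [IsAlgClosed F] {a : Module.End F V} (ha : ¬ IsUnit a)
    {G : Subgroup (V ≃ₗ[F] V)} (hG : ZarClosed G) :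
    IsAutPair a G ↔ TransOn G (finrank F (LinearMap.range a)) ∧
      TransOn G (finrank F (LinearMap.ker a)) := by
  constructor
  · intro h
    rw [criterion ha G] at h
    exact ⟨h.1, h.2.1⟩
  rintro ⟨h1, h2⟩
  have hker : LinearMap.ker a ≠ ⊥ := fun h => ha ((LinearMap.isUnit_iff_ker_eq_bot a).2 h)
  have hinf : Infinite F := IsAlgClosed.instInfinite
  obtain ⟨n, b, S, hS⟩ := hG
  have hn : finrank F V = n := by rw [finrank_eq_card_basis b, Fintype.card_fin]
  have hmatinj : Function.Injective (mat b) := by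
    intro u v h
    have h3 := congrArg (fun g : GL (Fin n) F => (g : Matrix (Fin n) (Fin n) F)) h
    have h4 : (u : V →ₗ[F] V) = (v : V →ₗ[F] V) := (LinearMap.toMatrix b b).injective h3
    exact LinearEquiv.toLinearMap_injective h4
  have hG' : ClosedGL (G.map (mat b)) := by
    refine ⟨S, fun g => ?_⟩
    obtain ⟨u, rfl⟩ := mat_surj b g
    rw [mat_coe, ← hS u]
    exact Subgroup.mem_map_iff_mem hmatinj
  obtain ⟨K', hK'G, hK'c, hK'p, hK'n, T, hTf, hTG, hGT⟩ := exists_comp hG'
  have hKmap : (K'.comap (mat b)).map (mat b) = K' :=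
    Subgroup.map_comap_eq_self_of_surjective (mat_surj b) K'
  have hKG : K'.comap (mat b) ≤ G := by
    intro u hu
    exact (Subgroup.mem_map_iff_mem hmatinj).1 (hK'G hu)
  have hcn : Cn (mats K') := by
    obtain ⟨S', hS'⟩ := hK'c
    have e : mats K' = {M : Matrix (Fin n) (Fin n) F | ev M (gdet F n) ≠ 0 ∧ ∀ f ∈ S', ev M f = 0} := by
      ext M
      constructor
      · rintro ⟨k, hk, rfl⟩
        refine ⟨?_, (hS' k).1 hk⟩
        rw [ev_gdet]
        exact (k.isUnit.map Matrix.detMonoidHom).ne_zero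
      · rintro ⟨h3, h4⟩
        rw [ev_gdet] at h3
        exact ⟨Matrix.GeneralLinearGroup.mkOfDetNeZero M h3, (hS' _).2 h4, rfl⟩
    rw [e]
    exact Cn.locus S' (gdet F n)
  have hdesc : ∀ d ≤ n, TransOn G d → TransOn (K'.comap (mat b)) d := by
    intro d hd h
    apply trans_of_cover b hd
    intro g
    rw [hKmap]
    exact cover_descend hK'G hcn hK'p (par_cn F n d) (par_prime n d) (fun M hM => hM.1)
      par_mul hK'n hTf hTG hGT (cover_of_trans b hd h) g
  have k1 := hdesc _ (by rw [← hn]; exact Submodule.finrank_le _) h1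
  have k2 := hdesc _ (by rw [← hn]; exact Submodule.finrank_le _) h2
  refine pair_mono hker hKG (pair_of_irred ha k1 k2 fun c hne => ?_)
  rw [cmp_eq a _ b c, hKmap] at hne ⊢
  exact ⟨prime_image hK'p _ hne, Cn.image hcn _⟩

end

end Pool.Agent.P2a19dz
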