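import Pool.Agent.Lib.P2a19dz.Defs

/-!
Products of irreducible sets of matrices are irreducible.
-/

set_option autoImplicit false

namespace Pool.Agent.P2a19dz

open Module MvPolynomial Pool.Agent.P2a19db Pool.Agent.P2a19da

variable {F : Type*} [Field F] {r : ℕ}

lemma exists_of_not_mem {Z : Set (Matrix (Fin r) (Fin r) F)} {f : MvPolynomial (Fin r × Fin r) F}
    (h : f ∉ van Z) : ∃ z ∈ Z, ev z f ≠ 0 := by
  by_contra hc
  push Not at hc
  exact h hc

theorem prime_prd {Z Z' : Set (Matrix (Fin r) (Fin r) F)} (hZ : (van Z).IsPrime)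
    (hZ' : (van Z').IsPrime) : (van (prd Z Z')).IsPrime := by
  refine ⟨?_, ?_⟩
  · intro h
    have h1 : (1 : MvPolynomial (Fin r × Fin r) F) ∉ van Z := fun h1 => hZ.ne_top ((Ideal.eq_top_iff_one _).2 h1)
    have h2 : (1 : MvPolynomial (Fin r × Fin r) F) ∉ van Z' := fun h1 => hZ'.ne_top ((Ideal.eq_top_iff_one _).2 h1)
    obtain ⟨z, hz, -⟩ := exists_of_not_mem h1
    obtain ⟨z', hz', -⟩ := exists_of_not_mem h2
    have h3 : (1 : MvPolynomial (Fin r × Fin r) F) ∈ van (prd Z Z') := by rw [h]; trivial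
    have h4 := h3 _ ⟨z, hz, z', hz', rfl⟩
    have h5 : ev (z * z') (1 : MvPolynomial (Fin r × Fin r) F) = 1 := map_one _
    rw [h5] at h4
    exact one_ne_zero h4
  · intro f g hfg
    by_contra hc
    push Not at hc
    obtain ⟨hf, hg⟩ := hc
    obtain ⟨_, ⟨z1, hz1, w1, hw1, rfl⟩, h1⟩ := exists_of_not_mem hf
    obtain ⟨_, ⟨z2, hz2, w2, hw2, rfl⟩, h2⟩ := exists_of_not_mem hg
    have h3 : tw 1 w1 f ∉ van Z := fun h => h1 (by have := h z1 hz1; rwa [ev_tw, one_mul] at this)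
    have h4 : tw 1 w2 g ∉ van Z := fun h => h2 (by have := h z2 hz2; rwa [ev_tw, one_mul] at this)
    obtain ⟨z, hz, h5⟩ := exists_of_not_mem (fun h => (hZ.mem_or_mem h).elim h3 h4 :
      tw 1 w1 f * tw 1 w2 g ∉ van Z)
    rw [ev_mul, ev_tw, ev_tw, one_mul] at h5
    obtain ⟨h6, h7⟩ := mul_ne_zero_iff.1 h5
    have h8 : tw z 1 f ∉ van Z' := fun h => h6 (by have := h w1 hw1; rwa [ev_tw, mul_one] at this)
    have h9 : tw z 1 g ∉ van Z' := fun h => h7 (by have := h w2 hw2; rwa [ev_tw, mul_one] at this)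
    obtain ⟨w, hw, h10⟩ := exists_of_not_mem (fun h => (hZ'.mem_or_mem h).elim h8 h9 :
      tw z 1 f * tw z 1 g ∉ van Z')
    rw [ev_mul, ev_tw, ev_tw, mul_one] at h10
    have h11 := hfg _ ⟨z, hz, w, hw, rfl⟩
    rw [ev_mul] at h11
    exact h10 h11

lemma nonempty_of_prime {Z : Set (Matrix (Fin r) (Fin r) F)} (hZ : (van Z).IsPrime) : Z.Nonempty := by
  have h1 : (1 : MvPolynomial (Fin r × Fin r) F) ∉ van Z := fun h1 => hZ.ne_top ((Ideal.eq_top_iff_one _).2 h1)
  obtain ⟨z, hz, -⟩ := exists_of_not_mem h1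
  exact ⟨z, hz⟩

lemma prime_one (M : Matrix (Fin r) (Fin r) F) : (van {M}).IsPrime := by
  refine ⟨?_, ?_⟩
  · intro h
    have h3 : (1 : MvPolynomial (Fin r × Fin r) F) ∈ van {M} := by rw [h]; trivial
    have h4 := h3 M rfl
    have h5 : ev M (1 : MvPolynomial (Fin r × Fin r) F) = 1 := map_one _
    rw [h5] at h4
    exact one_ne_zero h4
  · intro f g hfg
    have h := hfg M rfl
    rw [ev_mul] at h
    rcases mul_eq_zero.1 h with h | h
    · left
      intro N hN
      rw [Set.mem_singleton_iff.1 hN]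
      exact h
    · right
      intro N hN
      rw [Set.mem_singleton_iff.1 hN]
      exact h

end Pool.Agent.P2a19dz
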