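import Mathlib

/-!
Zariski closed groups of automorphisms.
-/

set_option autoImplicit false

namespace Pool.Agent.P2a19dz

/-- `G` is a Zariski closed subgroup of `GL(V)`, that is, a linear algebraic group: for some basis `b` of
`V` and some set `S` of polynomials in `n ^ 2` variables, `G` consists of the automorphisms whose matrix
entries are zeros of all polynomials in `S` -/
def ZariskiClosed {F V : Type*} [Field F] [AddCommGroup V] [Module F V]
    (G : Subgroup (V ≃ₗ[F] V)) : Prop :=
  ∃ (n : ℕ) (b : Module.Basis (Fin n) F V) (S : Set (MvPolynomial (Fin n × Fin n) F)),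
    ∀ g : V ≃ₗ[F] V, g ∈ G ↔ ∀ f ∈ S,
      MvPolynomial.eval (fun p => LinearMap.toMatrix b b (g : V →ₗ[F] V) p.1 p.2) f = 0

end Pool.Agent.P2a19dz
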